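import Mathlib
import Pool.Graph.R_seed8.R104.QRado2

/-!
# MP_ca0b96_co: the q-analogue of Rado's theorem for several q-matroids

The bar nullity of a q-matroid depends only on the rank of the q-matroid and on dimensions.  A
family has a q-transversal that is independent in each of `m` q-matroids, `m < |K|`, if and only if
it has a q-transversal and `n` is at most the rank of each of the q-matroids.  The bound `m < |K|`
cannot be weakened.
-/

set_option autoImplicit false
set_option linter.unusedSectionVars false

namespace Pool.Agent.Results.MP_ca0b96_co.SeveralQMatroids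

open Module Submodule Pool.Agent.R104.QRado

universe u

section

variable {K V : Type*} [Field K] [AddCommGroup V] [Module K V] [FiniteDimensional K V]

/-- at most `|K|` proper subspaces do not cover the space -/
theorem exists_notMem {ι : Type*} [Fintype ι] (hι : (Fintype.card ι : ℕ∞) ≤ ENat.card K)
    (p : ι → Submodule K V) (hp : ∀ i, p i ≠ ⊤) : ∃ x, ∀ i, x ∉ p i := by
  classical
  rcases finite_or_infinite K with hK | hK
  · have : Fintype K := Fintype.ofFinite K
    have : Finite V := Module.finite_of_finite K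
    have : Fintype V := Fintype.ofFinite V
    by_contra hcon
    push Not at hcon
    have hq : 1 < Fintype.card K := Fintype.one_lt_card
    have hι' : Fintype.card ι ≤ Fintype.card K := by
      rw [ENat.card_eq_coe_fintype_card] at hι
      exact_mod_cast hι
    have hV : Fintype.card V = Fintype.card K ^ finrank K V := Module.card_eq_pow_finrank
    have hd : 0 < finrank K V := by
      obtain ⟨i, _⟩ := hcon 0
      have h1 := finrank_lt (hp i)
      omega
    have hsub : (Finset.univ : Finset V).erase 0 ⊆
        Finset.univ.biUnion (fun i => ((Finset.univ.filter (fun x => x ∈ p i)).erase 0)) := by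
      intro x hx
      rw [Finset.mem_erase] at hx
      obtain ⟨i, hi⟩ := hcon x
      rw [Finset.mem_biUnion]
      exact ⟨i, Finset.mem_univ _, by
        rw [Finset.mem_erase, Finset.mem_filter]; exact ⟨hx.1, Finset.mem_univ _, hi⟩⟩
    have hcard := (Finset.card_le_card hsub).trans Finset.card_biUnion_le
    have hterm : ∀ i ∈ (Finset.univ : Finset ι),
        ((Finset.univ.filter (fun x => x ∈ p i)).erase 0).card ≤
          Fintype.card K ^ (finrank K V - 1) - 1 := by
      intro i _
      rw [Finset.card_erase_of_mem (by simp)]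
      apply Nat.sub_le_sub_right
      have h1 : (Finset.univ.filter (fun x => x ∈ p i)).card = Fintype.card (p i) := by
        rw [Fintype.card_subtype]
      rw [h1, Module.card_eq_pow_finrank (K := K) (V := p i)]
      apply Nat.pow_le_pow_right (by omega)
      have := finrank_lt (hp i)
      omega
    have h2 := Finset.sum_le_card_nsmul _ _ _ hterm
    rw [Finset.card_erase_of_mem (Finset.mem_univ _), Finset.card_univ, hV] at hcard
    rw [Finset.card_univ, smul_eq_mul] at h2
    have h3 : Fintype.card ι * (Fintype.card K ^ (finrank K V - 1) - 1) ≤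
        Fintype.card K * (Fintype.card K ^ (finrank K V - 1) - 1) := Nat.mul_le_mul_right _ hι'
    have h4 : Fintype.card K * (Fintype.card K ^ (finrank K V - 1) - 1) =
        Fintype.card K ^ finrank K V - Fintype.card K := by
      rw [Nat.mul_sub, mul_one, ← pow_succ']
      congr 2
      omega
    have h5 : Fintype.card K ≤ Fintype.card K ^ finrank K V := by
      calc Fintype.card K = Fintype.card K ^ 1 := (pow_one _).symm
        _ ≤ _ := Nat.pow_le_pow_right (by omega) hd
    omega
  · exact Submodule.exists_forall_notMem_of_forall_ne_top p hp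

/-- common independent subspaces avoiding `H` -/
theorem exists_avoid_all {ι : Type*} [Fintype ι] (hι : (Fintype.card ι : ℕ∞) < ENat.card K)
    (M : ι → QMatroid K V) {n : ℕ} {H : Submodule K V}
    (hH : finrank K H + n ≤ finrank K V) (hn : ∀ i, n ≤ (M i).r ⊤) :
    ∀ m, m ≤ n → ∃ T : Submodule K V, (∀ i, (M i).Indep T) ∧ finrank K T = m ∧ Disjoint H T := by
  intro m
  induction m with
  | zero =>
    intro _
    exact ⟨⊥, fun i => (M i).indep_bot, finrank_bot K V, disjoint_bot_right⟩
  | succ m ih =>
    intro hm
    obtain ⟨T, hT, hTm, hTH⟩ := ih (by omega)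
    have hcard : (Fintype.card (Option ι) : ℕ∞) ≤ ENat.card K := by
      rw [Fintype.card_option]
      push_cast
      exact Order.add_one_le_of_lt hι
    obtain ⟨x, hx⟩ := exists_notMem hcard
      (fun o : Option ι => o.elim (H ⊔ T) (fun i => (M i).cl T)) (by
        rintro (_ | i)
        · intro htop
          have h1 := finrank_add_le_finrank_add_finrank H T
          change H ⊔ T = ⊤ at htop
          rw [htop, finrank_top] at h1
          omega
        · intro htop
          change (M i).cl T = ⊤ at htop
          have h1 := (M i).r_cl T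
          have h2 := hT i
          unfold QMatroid.Indep at h2
          rw [htop, h2] at h1
          have := hn i
          omega)
    have hx1 : x ∉ H ⊔ T := hx none
    have hx2 : ∀ i, x ∉ (M i).cl T := fun i => hx (some i)
    refine ⟨T ⊔ span K {x}, fun i => ((M i).indep_sup (hT i) (hx2 i)).1, ?_, ?_⟩
    · rw [finrank_sup_span (fun h => hx1 (mem_sup_right h)), hTm]
    rw [disjoint_def] at hTH ⊢
    intro y hyH hy
    rw [mem_sup] at hy
    obtain ⟨t, ht, z, hz, rfl⟩ := hy
    rw [mem_span_singleton] at hz
    obtain ⟨c, rfl⟩ := hz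
    by_cases hc : c = 0
    · subst hc
      rw [zero_smul, add_zero] at hyH ⊢
      exact hTH t hyH ht
    · exfalso
      apply hx1
      have h3 : c • x ∈ H ⊔ T := by
        have : c • x = (t + c • x) + (-t) := by abel
        rw [this]
        exact add_mem (mem_sup_left hyH) (mem_sup_right (neg_mem ht))
      have h4 := smul_mem _ c⁻¹ h3
      rwa [smul_smul, inv_mul_cancel₀ hc, one_smul] at h4

theorem r_top_le (M : QMatroid K V) : M.r ⊤ ≤ finrank K V := by
  have := M.r_le ⊤
  rwa [finrank_top] at this

/-- **The bar nullity.** -/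
theorem barNullity_eq (M : QMatroid K V) (X : Submodule K V) :
    M.barNullity X = finrank K X + M.r ⊤ - finrank K V := by
  apply le_antisymm
  · have hX := finrank_le (R := K) X
    obtain ⟨T, hT, hTn, hTX⟩ := exists_avoid M (H := X)
      (n := min (finrank K V - finrank K X) (M.r ⊤)) (by omega) (by omega) _ le_rfl
    obtain ⟨B, hB, hTB⟩ := M.exists_basis hT
    have h1 := M.barNullity_le (X := X) hB
    have h2 := M.finrank_basis hB
    have h3 := finrank_sup_add_finrank_inf_eq B X
    have h4 := finrank_sup_add_finrank_inf_eq X T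
    rw [hTX.eq_bot, finrank_bot] at h4
    have h5 : finrank K (X ⊔ T : Submodule K V) ≤ finrank K (B ⊔ X : Submodule K V) :=
      finrank_mono (sup_le le_sup_right (hTB.trans le_sup_left))
    omega
  · obtain ⟨B, hB, h1⟩ := M.barNullity_mem X
    have h2 := M.finrank_basis hB
    have h3 := finrank_sup_add_finrank_inf_eq B X
    have h4 := finrank_le (R := K) (B ⊔ X)
    omega

theorem step {n : ℕ} {H : Fin n → Submodule K V} (hH : ∀ i, finrank K V ≤ finrank K (H i) + 1)
    (T : Submodule K V) (J J' : Finset (Fin n)) :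
    finrank K (T ⊓ XJ H J : Submodule K V) ≤
      finrank K (T ⊓ XJ H (J ∪ J') : Submodule K V) + J'.card := by
  classical
  induction J' using Finset.induction_on with
  | empty => rw [Finset.union_empty]; exact Nat.le_add_right _ _
  | insert i J' hi ih =>
    rw [Finset.card_insert_of_notMem hi, Finset.union_insert, XJ_insert]
    have h1 := finrank_sup_add_finrank_inf_eq (T ⊓ XJ H (J ∪ J')) (H i)
    have h2 := finrank_le (R := K) (T ⊓ XJ H (J ∪ J') ⊔ H i)
    have h3 := hH i
    have h4 : T ⊓ XJ H (J ∪ J') ⊓ H i = T ⊓ (H i ⊓ XJ H (J ∪ J')) := by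
      rw [inf_assoc, inf_comm (XJ H (J ∪ J'))]
    rw [h4] at h1
    omega

/-- **Several q-matroids.** -/
theorem several {m : ℕ} (hm : (m : ℕ∞) < ENat.card K) (M : Fin m → QMatroid K V) (n : ℕ)
    (X : Fin n → Submodule K V) :
    (∃ T : Submodule K V, IsQTransversal X T ∧ ∀ i, (M i).Indep T) ↔
      (∀ i, n ≤ (M i).r ⊤) ∧
      ∀ J : Finset (Fin n), finrank K (⨅ j ∈ J, X j : Submodule K V) + J.card ≤ finrank K V := by
  classical
  constructor
  · rintro ⟨T, hT, hTi⟩
    have hTn := hT.1
    refine ⟨fun i => ?_, fun J => ?_⟩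
    · rw [← hTn]
      have h1 := hTi i
      unfold QMatroid.Indep at h1
      rw [← h1]
      exact (M i).mono _ _ le_top
    · show finrank K (XJ X J) + J.card ≤ finrank K V
      have h1 := (transversal_iff X T hTn).1 hT J
      have h4 := finrank_sup_add_finrank_inf_eq T (XJ X J)
      have h5 := finrank_le (R := K) (T ⊔ XJ X J)
      omega
  · rintro ⟨hr, hdim⟩
    obtain ⟨H, hXH, hH1, hHJ⟩ := enlarge X hdim
    have hHn := hHJ Finset.univ
    rw [Finset.card_univ, Fintype.card_fin] at hHn
    obtain ⟨T, hTi, hTn, hTH⟩ := exists_avoid_all (by simpa using hm) M hHn hr n le_rfl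
    refine ⟨T, (transversal_iff X T hTn).2 (fun J => ?_), hTi⟩
    have h1 := step hH1 T J Jᶜ
    rw [Finset.union_compl, inf_comm T (XJ H Finset.univ), hTH.eq_bot, finrank_bot,
      Finset.card_compl, Fintype.card_fin] at h1
    have h2 : finrank K (T ⊓ XJ X J : Submodule K V) ≤ finrank K (T ⊓ XJ H J : Submodule K V) :=
      finrank_mono (inf_le_inf_left T (XJ_mono hXH J))
    have h3 : J.card ≤ n := by
      have := Finset.card_le_univ J
      rwa [Fintype.card_fin] at this
    omega

/-- the conditions for the single q-matroids -/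
theorem cond_iff {m : ℕ} (hm : 0 < m) (M : Fin m → QMatroid K V) (n : ℕ)
    (X : Fin n → Submodule K V) :
    (∀ i, ∀ J : Finset (Fin n), (M i).barNullity (⨅ j ∈ J, X j) + J.card ≤ (M i).barNullity ⊤) ↔
      (∀ i, n ≤ (M i).r ⊤) ∧
      ∀ J : Finset (Fin n), finrank K (⨅ j ∈ J, X j : Submodule K V) + J.card ≤ finrank K V := by
  constructor
  · intro h
    refine ⟨fun i => ?_, fun J => ?_⟩
    · have h1 := h i Finset.univ
      rw [(M i).barNullity_top, Finset.card_univ, Fintype.card_fin] at h1
      omega
    · have h1 := h ⟨0, hm⟩ J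
      rw [(M _).barNullity_top, barNullity_eq] at h1
      have h2 := r_top_le (M ⟨0, hm⟩)
      omega
  · rintro ⟨h1, h2⟩ i J
    rw [(M i).barNullity_top, barNullity_eq]
    have h3 := h1 i
    have h4 := h2 J
    have h5 : J.card ≤ n := by
      have := Finset.card_le_univ J
      rwa [Fintype.card_fin] at this
    omega

end

/-- the q-matroid with the space of loops `L` -/
noncomputable def loops {K V : Type*} [Field K] [AddCommGroup V] [Module K V]
    [FiniteDimensional K V] (L : Submodule K V) : QMatroid K V where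
  r A := finrank K (A ⊔ L : Submodule K V) - finrank K L
  r_le A := by
    have := finrank_add_le_finrank_add_finrank A L
    omega
  mono A B h := Nat.sub_le_sub_right (finrank_mono (sup_le_sup_right h L)) _
  submod A B := by
    have h1 := finrank_sup_add_finrank_inf_eq (A ⊔ L) (B ⊔ L)
    have h2 : (A ⊔ L) ⊔ (B ⊔ L) = A ⊔ B ⊔ L := by
      rw [sup_sup_sup_comm, sup_idem]
    have h3 : finrank K ((A ⊓ B) ⊔ L : Submodule K V) ≤
        finrank K ((A ⊔ L) ⊓ (B ⊔ L) : Submodule K V) :=
      finrank_mono (sup_le (inf_le_inf le_sup_left le_sup_left) (le_inf le_sup_right le_sup_right))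
    have h4 : finrank K L ≤ finrank K ((A ⊓ B) ⊔ L : Submodule K V) := finrank_mono le_sup_right
    have h5 : finrank K L ≤ finrank K (A ⊔ B ⊔ L : Submodule K V) := finrank_mono le_sup_right
    have h6 : finrank K L ≤ finrank K (A ⊔ L : Submodule K V) := finrank_mono le_sup_right
    have h7 : finrank K L ≤ finrank K (B ⊔ L : Submodule K V) := finrank_mono le_sup_right
    rw [h2] at h1
    omega

theorem sharp (K : Type u) [Field K] (m : ℕ) (hm : ENat.card K ≤ m) :
    ∃ (M : Fin m → QMatroid K (Fin 2 → K)) (X : Fin 1 → Submodule K (Fin 2 → K)),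
      (∀ i, ∀ J : Finset (Fin 1),
        (M i).barNullity (⨅ j ∈ J, X j) + J.card ≤ (M i).barNullity ⊤) ∧
      ¬ ∃ T : Submodule K (Fin 2 → K), IsQTransversal X T ∧ ∀ i, (M i).Indep T := by
  classical
  have hfin : Finite K := by
    by_contra hinf
    rw [not_finite_iff_infinite] at hinf
    rw [ENat.card_eq_top_of_infinite, top_le_iff] at hm
    exact ENat.natCast_ne_top m hm
  have : Fintype K := Fintype.ofFinite K
  have hKm : Fintype.card K ≤ m := by
    rw [ENat.card_eq_coe_fintype_card] at hm
    exact_mod_cast hm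
  have hm0 : 0 < m := lt_of_lt_of_le Fintype.card_pos hKm
  -- a surjection onto `K`
  obtain ⟨c, hc⟩ : ∃ c : Fin m → K, Function.Surjective c := by
    obtain ⟨e⟩ : Nonempty (K ↪ Fin m) :=
      Function.Embedding.nonempty_of_card_le (by rwa [Fintype.card_fin])
    exact ⟨Function.invFun e, Function.invFun_surjective e.injective⟩
  have hdim1 : ∀ v : Fin 2 → K, v ≠ 0 → finrank K (span K {v} : Submodule K (Fin 2 → K)) = 1 :=
    fun v hv => finrank_span_singleton hv
  have hV : finrank K (Fin 2 → K) = 2 := by simp
  have hv : ∀ a : K, (![1, a] : Fin 2 → K) ≠ 0 := by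
    intro a h
    have := congrFun h 0
    simp at this
  have hw : (![0, 1] : Fin 2 → K) ≠ 0 := by
    intro h
    have := congrFun h 1
    simp at this
  refine ⟨fun i => loops (span K {![1, c i]}), fun _ => span K {![0, 1]}, ?_, ?_⟩
  · rw [cond_iff hm0]
    refine ⟨fun i => ?_, fun J => ?_⟩
    · show 1 ≤ finrank K (⊤ ⊔ span K {![1, c i]} : Submodule K (Fin 2 → K)) -
        finrank K (span K {![1, c i]} : Submodule K (Fin 2 → K))
      rw [top_sup_eq, finrank_top, hV, hdim1 _ (hv _)]
    · rw [hV]
      rcases J.eq_empty_or_nonempty with rfl | hJ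
      · have h1 := finrank_le (R := K) (⨅ j ∈ (∅ : Finset (Fin 1)),
          (span K {![0, 1]} : Submodule K (Fin 2 → K)))
        rw [hV] at h1
        rw [Finset.card_empty]
        omega
      · have h1 : (⨅ j ∈ J, span K {![0, 1]} : Submodule K (Fin 2 → K)) ≤ span K {![0, 1]} := by
          obtain ⟨j, hj⟩ := hJ
          exact iInf₂_le j hj
        have h2 := finrank_mono h1
        rw [hdim1 _ hw] at h2
        have h3 : J.card ≤ 1 := by
          have := Finset.card_le_univ J
          rwa [Fintype.card_fin] at this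
        omega
  · rintro ⟨T, hT, hTi⟩
    have hT1 : finrank K T = 1 := hT.1
    obtain ⟨v, hv0, hvT⟩ := finrank_eq_one_iff'.1 hT1
    have hv0' : (v : Fin 2 → K) ≠ 0 := fun h => hv0 (Subtype.ext h)
    by_cases ha : (v : Fin 2 → K) 0 = 0
    · obtain ⟨σ, hσ⟩ := hT.2 (fun _ => (v : Fin 2 → K)) (by
        rw [linearIndependent_unique_iff]
        exact hv0') (by
        rw [Set.range_const]
        apply le_antisymm
        · rw [span_singleton_le_iff_mem]; exact v.2
        · intro w hw
          obtain ⟨d, hd⟩ := hvT ⟨w, hw⟩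
          rw [mem_span_singleton]
          exact ⟨d, congrArg Subtype.val hd⟩)
      apply hσ 0
      rw [mem_span_singleton]
      refine ⟨(v : Fin 2 → K) 1, ?_⟩
      funext i
      fin_cases i
      · simp [ha]
      · simp
    · obtain ⟨i, hi⟩ := hc ((v : Fin 2 → K) 1 / (v : Fin 2 → K) 0)
      have hle : T ≤ span K {![1, c i]} := by
        intro w hw
        obtain ⟨d, hd⟩ := hvT ⟨w, hw⟩
        have hd' : d • (v : Fin 2 → K) = w := congrArg Subtype.val hd
        rw [mem_span_singleton]
        refine ⟨d * (v : Fin 2 → K) 0, ?_⟩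
        rw [← hd', hi]
        funext j
        fin_cases j
        · simp
        · simp
          field_simp
      have h1 := hTi i
      change finrank K (T ⊔ span K {![1, c i]} : Submodule K (Fin 2 → K)) -
        finrank K (span K {![1, c i]} : Submodule K (Fin 2 → K)) = finrank K T at h1
      rw [sup_eq_right.2 hle, Nat.sub_self, hT1] at h1
      exact absurd h1 (by norm_num)

/-- **Main theorem.** Let `K` be any field.
(1) For every `q`-matroid `M` on a finite dimensional space `V` and every `X ≤ V`, the bar nullity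
is `n̄(X) = max (0, dim X + r(V) - dim V)`.
(2) Let `M₁, ..., M_m` be `q`-matroids on `V`, `m < |K|`.  A family `X₁, ..., X_n` has a
`q`-transversal independent in all `M_i` iff `n ≤ r_i(V)` for all `i` and
`dim X(J) + |J| ≤ dim V` for all `J` (equivalently, `X` has a `q`-transversal and `n ≤ r_i(V)`).
(3) For `0 < m < |K|` this holds iff `n̄_i(X(J)) + |J| ≤ n̄_i(V)` for all `i` and `J`, that is, iff
each `M_i` has an independent `q`-transversal.
(4) For every `m ≥ |K|` this fails, already for `V = K²` and `n = 1`. -/
theorem result (K : Type u) [Field K] :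
    (∀ (V : Type u) [AddCommGroup V] [Module K V] [FiniteDimensional K V] (M : QMatroid K V)
      (X : Submodule K V), M.barNullity X = finrank K X + M.r ⊤ - finrank K V) ∧
    (∀ m : ℕ, (m : ℕ∞) < ENat.card K →
      ∀ (V : Type u) [AddCommGroup V] [Module K V] [FiniteDimensional K V]
        (M : Fin m → QMatroid K V) (n : ℕ) (X : Fin n → Submodule K V),
        ((∃ T : Submodule K V, IsQTransversal X T ∧ ∀ i, (M i).Indep T) ↔
          (∀ i, n ≤ (M i).r ⊤) ∧ ∀ J : Finset (Fin n),
            finrank K (⨅ j ∈ J, X j : Submodule K V) + J.card ≤ finrank K V) ∧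
        ((∃ T : Submodule K V, IsQTransversal X T ∧ ∀ i, (M i).Indep T) ↔
          (∀ i, n ≤ (M i).r ⊤) ∧ ∃ T : Submodule K V, IsQTransversal X T) ∧
        (0 < m → ((∃ T : Submodule K V, IsQTransversal X T ∧ ∀ i, (M i).Indep T) ↔
          ∀ i, ∀ J : Finset (Fin n),
            (M i).barNullity (⨅ j ∈ J, X j) + J.card ≤ (M i).barNullity ⊤)) ∧
        (0 < m → ((∃ T : Submodule K V, IsQTransversal X T ∧ ∀ i, (M i).Indep T) ↔
          ∀ i, ∃ T : Submodule K V, IsQTransversal X T ∧ (M i).Indep T))) ∧
    (∀ m : ℕ, ENat.card K ≤ m →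
      ∃ (M : Fin m → QMatroid K (Fin 2 → K)) (X : Fin 1 → Submodule K (Fin 2 → K)),
        (∀ i, ∀ J : Finset (Fin 1),
          (M i).barNullity (⨅ j ∈ J, X j) + J.card ≤ (M i).barNullity ⊤) ∧
        ¬ ∃ T : Submodule K (Fin 2 → K), IsQTransversal X T ∧ ∀ i, (M i).Indep T) := by
  refine ⟨fun V _ _ _ M X => barNullity_eq M X, fun m hm V _ _ _ M n X => ?_,
    fun m hm => sharp K m hm⟩
  have h1 := several hm M n X
  have hT' : (∃ T : Submodule K V, IsQTransversal X T) ↔ ∀ J : Finset (Fin n),
      finrank K (⨅ j ∈ J, X j : Submodule K V) + J.card ≤ finrank K V := by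
    have h0 := several (K := K) (m := 0) (by
      have := ENat.card_pos (α := K)
      simpa using this) (fun i => i.elim0) n X
    constructor
    · rintro ⟨T, hT⟩
      exact (h0.1 ⟨T, hT, fun i => i.elim0⟩).2
    · intro h
      obtain ⟨T, hT, _⟩ := h0.2 ⟨fun i => i.elim0, h⟩
      exact ⟨T, hT⟩
  refine ⟨h1, ?_, fun hm0 => ?_, fun hm0 => ?_⟩
  · rw [h1, hT']
  · rw [h1, cond_iff hm0]
  · constructor
    · rintro ⟨T, hT, hTi⟩ i
      exact ⟨T, hT, hTi i⟩
    · intro h
      rw [h1]
      refine ⟨fun i => ?_, ?_⟩
      · obtain ⟨T, hT, hTi⟩ := h i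
        rw [← hT.1]
        unfold QMatroid.Indep at hTi
        rw [← hTi]
        exact (M i).mono _ _ le_top
      · obtain ⟨T, hT, _⟩ := h ⟨0, hm0⟩
        exact hT'.1 ⟨T, hT⟩

end Pool.Agent.Results.MP_ca0b96_co.SeveralQMatroids
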